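import Pool.Agent.H42M.ModFinal

/-! # MP_326854_nt: elliptic curves outside the reach of modularity lifting over totally real fields
of odd narrow class number (helper42)

Let `F` be totally real of odd narrow class number, such that 5 is an odd power of a prime ideal and
exactly one prime above 3 has odd ramification index, the others having odd residue degree. An
elliptic curve `W` over `F` which has an isogeny of degree 5 over `F`, and such that the Galois
group of `F(√-3)` acts on the 3-torsion through an abelian group, has one of six `j`-invariants,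
all rational. By theorems of Thorne and of Freitas, Le Hung and Siksek every elliptic curve over `F`
that does not satisfy the two conditions is modular.

The extension to several primes above 3 is due to helper57. -/

namespace Pool.Agent.Results.MP_326854_nt.OddNarrowClassNumber

open NumberField WeierstrassCurve WeierstrassCurve.Affine Pool.Agent.H42M

open scoped Classical in
theorem result {F : Type*} [Field F] [NumberField F] [IsTotallyReal F]
    (hclass : Odd (classNumber F))
    (hunits : ∀ u : (𝓞 F)ˣ, (∀ φ : F →+* ℝ, 0 < φ (algebraMap (𝓞 F) F u)) → IsSquare u)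
    (h3 : ∃ Q J : Ideal (𝓞 F), Q.IsPrime ∧ Ideal.span {(3 : 𝓞 F)} = Q * J ^ 2 ∧
      ∀ P : Ideal (𝓞 F), P.IsPrime → J ≤ P → P ≠ Q → ∀ a : 𝓞 F, a ^ 2 + 1 ∉ P)
    (h5 : ∃ P : Ideal (𝓞 F), P.IsPrime ∧ ∃ k : ℕ, Odd k ∧ Ideal.span {(5 : 𝓞 F)} = P ^ k)
    (W : WeierstrassCurve F) [W.IsElliptic]
    (C : AddSubgroup (W⁄(AlgebraicClosure F)).Point) (hC : Nat.card C = 5)
    (hσ : ∀ σ : AlgebraicClosure F ≃ₐ[F] AlgebraicClosure F,
      C.map (Point.map (W' := W) (σ : AlgebraicClosure F →ₐ[F] AlgebraicClosure F)) = C)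
    (hab : ∀ σ τ : AlgebraicClosure F ≃ₐ[F] AlgebraicClosure F,
      (∀ z : AlgebraicClosure F, z ^ 2 = -3 → σ z = z ∧ τ z = z) →
      ∀ R : (W⁄(AlgebraicClosure F)).Point, 3 • R = 0 →
        Point.map (W' := W) (σ : AlgebraicClosure F →ₐ[F] AlgebraicClosure F)
          (Point.map (W' := W) (τ : AlgebraicClosure F →ₐ[F] AlgebraicClosure F) R) =
        Point.map (W' := W) (τ : AlgebraicClosure F →ₐ[F] AlgebraicClosure F)
          (Point.map (W' := W) (σ : AlgebraicClosure F →ₐ[F] AlgebraicClosure F) R)) :
    W.j = -25 / 2 ∨ W.j = -349938025 / 8 ∨ W.j = -121945 / 32 ∨ W.j = 46969655 / 32768 ∨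
      W.j = 1331 / 8 ∨ W.j = -1680914269 / 32768 := by
  have H : Hyp F := hyp_mk hclass hunits h3 (by exact_mod_cast h5)
  obtain ⟨φ⟩ := exists_real F
  obtain ⟨c, hcc, hc3⟩ := exists_conj (K := AlgebraicClosure F) φ
  exact moduli' (seven1 H) (seven2 H) sum_ne_zero_of_real (sq_ne_five H.five) c hcc hc3 W C hC hσ
    fun σ τ h R hR => hab σ τ h R (by
      rw [show (3 : ℕ) • R = R + R + R by abel, hR, neg_add_cancel])

end Pool.Agent.Results.MP_326854_nt.OddNarrowClassNumber
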