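import Pool.Agent.S5N.Final
import Pool.Agent.S5N.Uniq

/-! # MP_326854_nt: elliptic curves outside the reach of modularity lifting over totally real fields
containing the square root of 5 (helper34)

Let `F` be a totally real field of odd narrow class number which contains `s = √5`, with exactly one
prime ideal above 3 and exactly one above 5. Let `W` be an elliptic curve over `F` such that
neither `W[3]` as a representation of the Galois group of `F(√-3)` nor `W[5]` as a representation of
the Galois group of `F(ζ₅)` is absolutely irreducible: any two elements of the first group commute on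
`W[3]`; the second group preserves a subgroup of order 5, or any two of its elements commute on
`W[5]`. Then the `j`-invariant of `W` is one of 22 numbers: the six rational numbers `-25/2`,
`-349938025/8`, `-121945/32`, `46969655/32768`, `1331/8`, `-1680914269/32768` and sixteen
`j`-invariants of elliptic curves with complex multiplication. By theorems of Wiles, Kisin, and
Freitas, Le Hung and Siksek every other elliptic curve over `F` is modular. -/

namespace Pool.Agent.Results.MP_326854_nt.SqrtFive

open NumberField WeierstrassCurve WeierstrassCurve.Affine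

open scoped Classical in
theorem result {F : Type*} [Field F] [NumberField F] [IsTotallyReal F] (s : 𝓞 F)
    (hs : s ^ 2 = 5) (hclass : Odd (classNumber F))
    (hunits : ∀ u : (𝓞 F)ˣ, (∀ φ : F →+* ℝ, 0 < φ (algebraMap (𝓞 F) F u)) → IsSquare u)
    (h3 : ∃! P : Ideal (𝓞 F), P.IsPrime ∧ (3 : 𝓞 F) ∈ P)
    (h5 : ∃! P : Ideal (𝓞 F), P.IsPrime ∧ (5 : 𝓞 F) ∈ P)
    (W : WeierstrassCurve F) [W.IsElliptic]
    (hW3 : ∀ σ τ : AlgebraicClosure F ≃ₐ[F] AlgebraicClosure F,
      (∀ z : AlgebraicClosure F, z ^ 2 = -3 → σ z = z ∧ τ z = z) →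
      ∀ R : (W⁄(AlgebraicClosure F)).Point, 3 • R = 0 →
        Point.map (W' := W) (σ : AlgebraicClosure F →ₐ[F] AlgebraicClosure F)
          (Point.map (W' := W) (τ : AlgebraicClosure F →ₐ[F] AlgebraicClosure F) R) =
        Point.map (W' := W) (τ : AlgebraicClosure F →ₐ[F] AlgebraicClosure F)
          (Point.map (W' := W) (σ : AlgebraicClosure F →ₐ[F] AlgebraicClosure F) R))
    (hW5 : (∃ C : AddSubgroup (W⁄(AlgebraicClosure F)).Point, Nat.card C = 5 ∧
        ∀ σ : AlgebraicClosure F ≃ₐ[F] AlgebraicClosure F,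
          (∀ z : AlgebraicClosure F, z ^ 5 = 1 → σ z = z) →
          C.map (Point.map (W' := W) (σ : AlgebraicClosure F →ₐ[F] AlgebraicClosure F)) = C) ∨
      ∀ σ τ : AlgebraicClosure F ≃ₐ[F] AlgebraicClosure F,
        (∀ z : AlgebraicClosure F, z ^ 5 = 1 → σ z = z ∧ τ z = z) →
        ∀ R : (W⁄(AlgebraicClosure F)).Point, 5 • R = 0 →
          Point.map (W' := W) (σ : AlgebraicClosure F →ₐ[F] AlgebraicClosure F)
            (Point.map (W' := W) (τ : AlgebraicClosure F →ₐ[F] AlgebraicClosure F) R) =
          Point.map (W' := W) (τ : AlgebraicClosure F →ₐ[F] AlgebraicClosure F)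
            (Point.map (W' := W) (σ : AlgebraicClosure F →ₐ[F] AlgebraicClosure F) R)) :
    W.j = 0 ∨ W.j = 1728 ∨ W.j = 8000 ∨ W.j = -32768 ∨ W.j = 54000 ∨ W.j = -12288000 ∨
    W.j = 632000 + 282880 * s ∨ W.j = 632000 - 282880 * s ∨
    W.j = -58982400 + 26378240 * s ∨ W.j = -58982400 - 26378240 * s ∨
    W.j = (-191025 + 85995 * s) / 2 ∨ W.j = (-191025 - 85995 * s) / 2 ∨
    W.j = (37018076625 + 16554983445 * s) / 2 ∨ W.j = (37018076625 - 16554983445 * s) / 2 ∨
    W.j = -327201914880 + 146329141248 * s ∨ W.j = -327201914880 - 146329141248 * s ∨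
    W.j = -25 / 2 ∨ W.j = -349938025 / 8 ∨ W.j = -121945 / 32 ∨ W.j = 46969655 / 32768 ∨
    W.j = 1331 / 8 ∨ W.j = -1680914269 / 32768 :=
  Pool.Agent.S5N.final (Pool.Agent.S5N.hypS_of_unique hs hclass hunits h3 h5) W hW3 hW5

end Pool.Agent.Results.MP_326854_nt.SqrtFive
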