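import Pool.Agent.H23T.RatHyp

/-! # MP_326854_nt: a local criterion for the modularity of elliptic curves over totally real
fields of arbitrary degree (helper23)

An elliptic curve `W` over a totally real field `K` which is out of reach of modularity lifting at
3 and 5 gives a `K`-point of `X₀(15)` or of `X(s3, b5)`. Let `F` be a subfield over which these two
elliptic curves have no points other than the rational ones (for instance `ℚ`). The sum of the
conjugates over `F` of the point of `W` is one of the eight rational points. At a place where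
`j(W)` is not integral, the conjugates are close to cusps, at a distance which is known up to an
exponent dividing 15. Comparing the distances in the group law gives the theorem. -/

namespace Pool.Agent.Results.MP_326854_nt.TraceCriterion

open NumberField WeierstrassCurve WeierstrassCurve.Affine Pool.Agent.H42M Pool.Agent.H23T

open scoped Classical in
theorem result {F K L : Type*} [Field F] [NumberField F]
    -- the elliptic curves `X₀(15)` and `X(s3, b5)` have no new points over `F`
    (hE1 : ∀ x y : F, y ^ 2 = (x + 102) * (x + 21) * (x - 123) → ∃ a b : ℚ, x = a ∧ y = b)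
    (hE2 : ∀ x y : F, y ^ 2 = (x - 51) * (x - 42) * (x + 93) → ∃ a b : ℚ, x = a ∧ y = b)
    [Field K] [NumberField K] [IsTotallyReal K] [Algebra F K] [FiniteDimensional F K]
    [Field L] [CharZero L] [Algebra F L] [IsGalois F L]
    (W : WeierstrassCurve K) [W.IsElliptic]
    (C : AddSubgroup (W⁄(AlgebraicClosure K)).Point) (hC : Nat.card C = 5)
    (hσ : ∀ σ : AlgebraicClosure K ≃ₐ[K] AlgebraicClosure K,
      C.map (Point.map (W' := W) (σ : AlgebraicClosure K →ₐ[K] AlgebraicClosure K)) = C)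
    (hab : ∀ σ τ : AlgebraicClosure K ≃ₐ[K] AlgebraicClosure K,
      (∀ z : AlgebraicClosure K, z ^ 2 = -3 → σ z = z ∧ τ z = z) →
      ∀ R : (W⁄(AlgebraicClosure K)).Point, 3 • R = 0 →
        Point.map (W' := W) (σ : AlgebraicClosure K →ₐ[K] AlgebraicClosure K)
          (Point.map (W' := W) (τ : AlgebraicClosure K →ₐ[K] AlgebraicClosure K) R) =
        Point.map (W' := W) (τ : AlgebraicClosure K →ₐ[K] AlgebraicClosure K)
          (Point.map (W' := W) (σ : AlgebraicClosure K →ₐ[K] AlgebraicClosure K) R))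
    {Γ₀ : Type*} [LinearOrderedCommGroupWithZero Γ₀] (v : Valuation L Γ₀)
    (h2 : v 2 = 1) (h3 : v 3 = 1) (h5 : v 5 = 1)
    (hmin : ∀ w : (K →ₐ[F] L) → ℕ, (∀ τ, w τ ∣ 15 ∧ ∃ z : K, v (τ z) ^ w τ = v (τ W.j)) →
      (∃ τ₀, ∀ τ, τ ≠ τ₀ → 1 < v (τ W.j) ∧ v (τ₀ W.j) ^ w τ < v (τ W.j) ^ w τ₀) ∨
      (∀ τ, w τ = 1 ∧ 1 < v (τ W.j) ∧
        1 < v (∑ σ : K →ₐ[F] L, (σ W.j)⁻¹) * v (τ W.j) ^ 2))
    (hmult : ∃ τ : K →ₐ[F] L, 1 < v (τ W.j)) :
    ∃ τ₀ : K →ₐ[F] L, v (τ₀ W.j) ≤ 1 ∧ ∃ c : L, (c = -25 / 2 ∨ c = -349938025 / 8 ∨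
      c = -121945 / 32 ∨ c = 46969655 / 32768 ∨ c = 1331 / 8 ∨ c = -1680914269 / 32768) ∧
      v (τ₀ W.j - c) < 1 :=
  criterion' (pts_of_rat hE1 hE2) W C hC hσ hab v h2 h3 h5 hmin hmult

end Pool.Agent.Results.MP_326854_nt.TraceCriterion
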