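import Pool.Agent.Cofin67.PartC

/-!
Part (c): Borel sigma-ideals with cofin equal to the first uncountable ordinal and cofinPlus
equal to that of a given Borel sigma-ideal, or infinite.
-/

namespace Pool.Agent.Variants.MP_66ab92_lc.CofinLtPlus

open Cardinal Ordinal Pool.Agent.Cofin67

theorem result :
    (∀ J : Set (Set (ℕ → Bool)), IsBorelSigmaIdeal J → (∀ x, {x} ∈ J) →
      ∃ I : Set (Set (ℕ → Bool)), IsBorelSigmaIdeal I ∧ (∀ x, {x} ∈ I) ∧ Set.univ ∉ I ∧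
        cofin I = ((ω₁ : Ordinal.{0}) : WithTop Ordinal.{0}) ∧ cofinPlus I = cofinPlus J ∧
        (ℵ₁ < add J → cofin I < cofinPlus I)) ∧
    ∃ I : Set (Set (ℕ → Bool)), IsBorelSigmaIdeal I ∧ (∀ x, {x} ∈ I) ∧ Set.univ ∉ I ∧
        cofin I = ((ω₁ : Ordinal.{0}) : WithTop Ordinal.{0}) ∧ cofinPlus I = ⊤ :=
  partC

end Pool.Agent.Variants.MP_66ab92_lc.CofinLtPlus
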