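import Pool.Agent.Cofin67.PartA

/-!
Part (a): a Borel sigma-ideal with cofinStar equal to the bounding number and cofinMinus at
least the groupwise density number.
-/

namespace Pool.Agent.Variants.MP_66ab92_lc.StarLtMinus

open Cardinal Ordinal Pool.Agent.Cofin67

theorem result : ∃ I : Set (Set (ℕ → Bool)), IsBorelSigmaIdeal I ∧ (∀ x, {x} ∈ I) ∧
    Set.univ ∉ I ∧ add I = bNum ∧
    cofinStar I = ((bNum.ord : Ordinal.{0}) : WithTop Ordinal.{0}) ∧
    ((gNum.ord : Ordinal.{0}) : WithTop Ordinal.{0}) ≤ cofinMinus I ∧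
    cofin I = cofinMinus I ∧
    cofin I ≤ ((dNum.ord : Ordinal.{0}) : WithTop Ordinal.{0}) ∧
    (bNum < gNum → cofinStar I < cofinMinus I) :=
  partA

end Pool.Agent.Variants.MP_66ab92_lc.StarLtMinus
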